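import Mathlib

/-! # Monotone selection of sublattices in Boolean algebras generated by chains

Every Boolean algebra generated by a chain has the monotone selection property. Every element of
such an algebra is in a unique way a finite symmetric difference of nonzero elements of the chain
(with `⊤` added); the set of the terms behaves like the set of end points of a finite union of
intervals, and the indicator functions satisfy the submodular inequality pointwise. Comparing these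
finite sets by their largest difference in a fixed well-ordering gives a strictly submodular
function with values in a well-ordered cancellative monoid, and `φ S` is the element of `S` with
the smallest value. -/

set_option autoImplicit false

namespace Pool.Agent.Results.MP_9a43b6_co.MonotoneSelection

universe u

/-- `S` is a nonempty sublattice of `T`. -/
def IsSublattice {T : Type u} [Lattice T] (S : Set T) : Prop :=
  S.Nonempty ∧ ∀ x ∈ S, ∀ y ∈ S, x ⊓ y ∈ S ∧ x ⊔ y ∈ S

/-- The relation `S ≤ S'`: meets of elements of `S` with elements of `S'` are in `S`, and joins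
are in `S'`. -/
def SubLE {T : Type u} [Lattice T] (S S' : Set T) : Prop :=
  ∀ x ∈ S, ∀ x' ∈ S', x ⊓ x' ∈ S ∧ x ⊔ x' ∈ S'

/-- The monotone selection property: some map on the nonempty sublattices is monotone and selects
an element of each of them. -/
def MonotoneSelectionProperty (T : Type u) [Lattice T] : Prop :=
  ∃ φ : {S : Set T // IsSublattice S} → T,
    (∀ S S' : {S : Set T // IsSublattice S}, SubLE S.1 S'.1 → φ S ≤ φ S') ∧
      ∀ S : {S : Set T // IsSublattice S}, φ S ∈ S.1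

/-- `T` is generated by a chain: the smallest Boolean subalgebra containing some linearly ordered
subset `C` is the whole of `T`. -/
def GeneratedByChain (T : Type u) [BooleanAlgebra T] : Prop :=
  ∃ C : Set T, IsChain (· ≤ ·) C ∧ BooleanSubalgebra.closure C = ⊤

section aux

variable {T : Type u} [BooleanAlgebra T]

structure IsVal (m : T → Bool) : Prop where
  inf : ∀ x y, m (x ⊓ y) = (m x && m y)
  sup : ∀ x y, m (x ⊔ y) = (m x || m y)
  sd : ∀ x y, m (symmDiff x y) = xor (m x) (m y)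

lemma exists_val (L U : Set T) (hL : IsChain (· ≤ ·) L) (hU : IsChain (· ≤ ·) U) (hL0 : ⊥ ∈ L)
    (h : ∀ l ∈ L, ∀ u ∈ U, ¬ u ≤ l) :
    ∃ m : T → Bool, IsVal m ∧ (∀ l ∈ L, m l = false) ∧ (∀ u ∈ U, m u = true) := by
  classical
  rcases U.eq_empty_or_nonempty with rfl | hne
  · exact ⟨fun _ => false, ⟨by simp, by simp, by simp⟩, by simp, by simp⟩
  · have hI : Order.IsIdeal {x : T | ∃ l ∈ L, x ≤ l} :=
      { IsLowerSet := fun a b hba ⟨l, hl, hal⟩ => ⟨l, hl, hba.trans hal⟩
        Nonempty := ⟨⊥, ⊥, hL0, le_rfl⟩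
        Directed := by
          rintro x ⟨l, hl, hx⟩ y ⟨k, hk, hy⟩
          rcases hL.total hl hk with hlk | hlk
          · exact ⟨k, ⟨k, hk, le_rfl⟩, hx.trans hlk, hy⟩
          · exact ⟨l, ⟨l, hl, le_rfl⟩, hx, hy.trans hlk⟩ }
    have hF : Order.IsPFilter {x : T | ∃ l ∈ U, l ≤ x} := by
      refine Order.IsPFilter.of_def ?_ ?_ ?_
      · obtain ⟨u, hu⟩ := hne
        exact ⟨u, u, hu, le_rfl⟩
      · rintro x ⟨l, hl, hx⟩ y ⟨k, hk, hy⟩
        rcases hU.total hl hk with hlk | hlk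
        · exact ⟨l, ⟨l, hl, le_rfl⟩, hx, hlk.trans hy⟩
        · exact ⟨k, ⟨k, hk, le_rfl⟩, hlk.trans hx, hy⟩
      · rintro x y hxy ⟨l, hl, hx⟩
        exact ⟨l, hl, hx.trans hxy⟩
    have hdis : Disjoint (hF.toPFilter : Set T) (hI.toIdeal : Set T) := by
      rw [Set.disjoint_left]
      rintro x ⟨w, hw, hx⟩ ⟨l, hl, hxl⟩
      exact h l hl w hw (hx.trans hxl)
    obtain ⟨J, hJ, hIJ, hFJ⟩ := DistribLattice.prime_ideal_of_disjoint_filter_ideal hdis
    rw [Set.disjoint_left] at hFJ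
    have hmemL : ∀ l ∈ L, l ∈ J := fun l hl => hIJ ⟨l, hl, le_rfl⟩
    have hmemU : ∀ w ∈ U, w ∉ J := fun w hw => hFJ ⟨w, hw, le_rfl⟩
    have htop : (⊤ : T) ∉ J := by
      obtain ⟨w, hw⟩ := hne
      exact fun ht => hmemU w hw (J.lower le_top ht)
    have hinf : ∀ x y, x ⊓ y ∈ J ↔ x ∈ J ∨ y ∈ J := by
      intro x y
      constructor
      · exact fun hxy => hJ.mem_or_mem hxy
      · rintro (hx | hy)
        · exact J.lower inf_le_left hx
        · exact J.lower inf_le_right hy
    have hsup : ∀ x y, x ⊔ y ∈ J ↔ x ∈ J ∧ y ∈ J := fun x y => Order.Ideal.sup_mem_iff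
    have hcompl : ∀ x, xᶜ ∈ J ↔ x ∉ J := by
      intro x
      constructor
      · intro h1 h2
        apply htop
        rw [← sup_compl_eq_top (x := x)]
        exact (hsup _ _).2 ⟨h2, h1⟩
      · exact fun h1 => hJ.compl_mem_of_notMem h1
    refine ⟨fun x => decide (x ∉ J), ⟨?_, ?_, ?_⟩, ?_, ?_⟩
    · intro x y
      by_cases hx : x ∈ J <;> by_cases hy : y ∈ J <;> simp [hinf, hx, hy]
    · intro x y
      by_cases hx : x ∈ J <;> by_cases hy : y ∈ J <;> simp [hsup, hx, hy]
    · intro x y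
      have : symmDiff x y = (x ⊓ yᶜ) ⊔ (y ⊓ xᶜ) := by
        rw [symmDiff, sdiff_eq, sdiff_eq]
      rw [this]
      by_cases hx : x ∈ J <;> by_cases hy : y ∈ J <;> simp [hsup, hinf, hcompl, hx, hy]
    · intro l hl
      simpa using hmemL l hl
    · intro w hw
      simpa using hmemU w hw

lemma sum_symmDiff {R ι : Type*} [BooleanRing R] [DecidableEq ι] (f : ι → R) (F G : Finset ι) :
    (∑ c ∈ F, f c) + ∑ c ∈ G, f c = ∑ c ∈ symmDiff F G, f c := by
  have h1 : ∑ c ∈ F, f c = ∑ c ∈ F ∩ G, f c + ∑ c ∈ F \ G, f c :=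
    (Finset.sum_inter_add_sum_sdiff F G f).symm
  have h2 : ∑ c ∈ G, f c = ∑ c ∈ F ∩ G, f c + ∑ c ∈ G \ F, f c := by
    rw [Finset.inter_comm]
    exact (Finset.sum_inter_add_sum_sdiff G F f).symm
  have h3 : ∑ c ∈ symmDiff F G, f c = ∑ c ∈ F \ G, f c + ∑ c ∈ G \ F, f c := by
    rw [symmDiff, Finset.sup_eq_union, Finset.sum_union]
    exact disjoint_sdiff_sdiff
  rw [h1, h2, h3]
  have h4 : ∑ c ∈ F ∩ G, f c + ∑ c ∈ F ∩ G, f c = 0 := BooleanRing.add_self _
  linear_combination h4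

/-- existence of the representation as a sum -/
lemma exists_rep (C : Set T) (hC : IsChain (· ≤ ·) C) (hgen : BooleanSubalgebra.closure C = ⊤)
    (x : T) : ∃ F : Finset T, (∀ c ∈ F, (c = ⊤ ∨ c ∈ C) ∧ c ≠ ⊥) ∧
      toBoolRing x = ∑ c ∈ F, toBoolRing c := by
  classical
  set M : Set T := {c | (c = ⊤ ∨ c ∈ C) ∧ c ≠ ⊥} with hM
  have hMinf : ∀ c ∈ M, ∀ d ∈ M, c ⊓ d ∈ M := by
    intro c hc d hd
    have : c ≤ d ∨ d ≤ c := by
      rcases hc.1 with h1 | h1
      · exact Or.inr (h1 ▸ le_top)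
      · rcases hd.1 with h2 | h2
        · exact Or.inl (h2 ▸ le_top)
        · exact hC.total h1 h2
    rcases this with h | h
    · rw [inf_eq_left.2 h]; exact hc
    · rw [inf_eq_right.2 h]; exact hd
  let A : AddSubgroup (AsBoolRing T) :=
    { carrier := {r | ∃ F : Finset T, (∀ c ∈ F, c ∈ M) ∧ r = ∑ c ∈ F, toBoolRing c}
      zero_mem' := ⟨∅, by simp, by simp⟩
      add_mem' := by
        rintro a b ⟨F, hF, rfl⟩ ⟨G, hG, rfl⟩
        refine ⟨symmDiff F G, ?_, sum_symmDiff _ F G⟩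
        intro c hc
        rw [Finset.mem_symmDiff] at hc
        rcases hc with hc | hc
        · exact hF c hc.1
        · exact hG c hc.1
      neg_mem' := by
        rintro a ⟨F, hF, rfl⟩
        exact ⟨F, hF, BooleanRing.neg_eq _⟩ }
  have hAM : ∀ c ∈ M, toBoolRing c ∈ A := fun c hc => ⟨{c}, by simpa using hc, by simp⟩
  have hAmul : ∀ a ∈ A, ∀ b ∈ A, a * b ∈ A := by
    rintro a ⟨F, hF, rfl⟩ b ⟨G, hG, rfl⟩
    rw [Finset.sum_mul_sum]
    refine A.sum_mem fun c hc => A.sum_mem fun d hd => ?_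
    rw [← toBoolRing_inf]
    exact hAM _ (hMinf c (hF c hc) d (hG d hd))
  have hA0 : toBoolRing (⊥ : T) ∈ A := by
    rw [toBoolRing_bot]; exact A.zero_mem
  have hA1 : toBoolRing (⊤ : T) ∈ A := by
    by_cases h : (⊤ : T) = ⊥
    · rw [h]; exact hA0
    · exact hAM _ ⟨Or.inl rfl, h⟩
  have hcompl : ∀ y : T, toBoolRing y ∈ A → toBoolRing yᶜ ∈ A := by
    intro y hy
    have h : yᶜ = symmDiff (⊤ : T) y := by simp [symmDiff, sdiff_eq]
    rw [h, toBoolRing_symmDiff]
    exact A.add_mem hA1 hy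
  have hinf : ∀ y z : T, toBoolRing y ∈ A → toBoolRing z ∈ A → toBoolRing (y ⊓ z) ∈ A := by
    intro y z hy hz
    rw [toBoolRing_inf]
    exact hAmul _ hy _ hz
  let B : BooleanSubalgebra T :=
    { carrier := {y | toBoolRing y ∈ A}
      supClosed' := by
        intro y hy z hz
        have : y ⊔ z = (yᶜ ⊓ zᶜ)ᶜ := by simp
        change toBoolRing (y ⊔ z) ∈ A
        rw [this]
        exact hcompl _ (hinf _ _ (hcompl _ hy) (hcompl _ hz))
      infClosed' := fun y hy z hz => hinf y z hy hz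
      compl_mem' := fun {y} hy => hcompl y hy
      bot_mem' := hA0 }
  have hCB : C ⊆ B := by
    intro c hc
    by_cases h : c = ⊥
    · rw [h]; exact hA0
    · exact hAM c ⟨Or.inr hc, h⟩
  have hle : BooleanSubalgebra.closure C ≤ B := BooleanSubalgebra.closure_le.2 hCB
  rw [hgen] at hle
  exact hle (BooleanSubalgebra.mem_top (a := x))

lemma exists_kappa (C : Set T) (hC : IsChain (· ≤ ·) C) (e : T) (he : e = ⊤ ∨ e ∈ C)
    (he0 : e ≠ ⊥) : ∃ m n : T → Bool, IsVal m ∧ IsVal n ∧
      ∀ (F : Finset T), (∀ c ∈ F, (c = ⊤ ∨ c ∈ C) ∧ c ≠ ⊥) → ∀ x : T,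
        toBoolRing x = ∑ c ∈ F, toBoolRing c → (xor (m x) (n x) = true ↔ e ∈ F) := by
  classical
  set M : Set T := {c | (c = ⊤ ∨ c ∈ C) ∨ c = ⊥} with hM
  have hMC : IsChain (· ≤ ·) M := by
    intro a ha b hb hab
    rcases ha with (ha | ha) | ha
    · exact Or.inr (ha ▸ le_top)
    · rcases hb with (hb | hb) | hb
      · exact Or.inl (hb ▸ le_top)
      · exact hC ha hb hab
      · exact Or.inr (hb ▸ bot_le)
    · exact Or.inl (ha ▸ bot_le)
  have hsub : ∀ P : T → Prop, IsChain (· ≤ ·) {c | c ∈ M ∧ P c} :=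
    fun P => hMC.mono fun c hc => hc.1
  obtain ⟨m, hm, hmL, hmU⟩ := exists_val {c | c ∈ M ∧ c < e} {c | c ∈ M ∧ e ≤ c}
    (hsub _) (hsub _) ⟨Or.inr rfl, bot_lt_iff_ne_bot.2 he0⟩
    (fun l hl w hw hwl => absurd (hw.2.trans hwl) (not_le_of_gt hl.2))
  obtain ⟨n, hn, hnL, hnU⟩ := exists_val {c | c ∈ M ∧ c ≤ e} {c | c ∈ M ∧ e < c}
    (hsub _) (hsub _) ⟨Or.inr rfl, bot_le⟩
    (fun l hl w hw hwl => absurd (hwl.trans hl.2) (not_le_of_gt hw.2))
  refine ⟨m, n, hm, hn, ?_⟩
  have hgen : ∀ c ∈ M, xor (m c) (n c) = decide (e = c) := by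
    intro c hc
    have heM : e ∈ M := Or.inl he
    rcases hMC.total hc heM with h | h
    · rcases h.lt_or_eq with h' | h'
      · rw [hmL c ⟨hc, h'⟩, hnL c ⟨hc, h⟩]
        simp [h'.ne']
      · subst h'
        rw [hmU c ⟨hc, le_rfl⟩, hnL c ⟨hc, le_rfl⟩]
        simp
    · rcases h.lt_or_eq with h' | h'
      · rw [hmU c ⟨hc, h⟩, hnU c ⟨hc, h'⟩]
        simp [h'.ne]
      · subst h'
        rw [hmU _ ⟨hc, le_rfl⟩, hnL _ ⟨hc, le_rfl⟩]
        simp
  intro F
  induction F using Finset.induction with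
  | empty =>
    intro _ x hx
    have hx0 : x = ⊥ := by
      rw [← toBoolRing_inj, hx, toBoolRing_bot]; simp
    subst hx0
    rw [hmL ⊥ ⟨Or.inr rfl, bot_lt_iff_ne_bot.2 he0⟩, hnL ⊥ ⟨Or.inr rfl, bot_le⟩]
    simp
  | insert c F hcF ih =>
    intro hF x hx
    rw [Finset.sum_insert hcF] at hx
    set y : T := ofBoolRing (∑ d ∈ F, toBoolRing d) with hy
    have hy' : toBoolRing y = ∑ d ∈ F, toBoolRing d := by rw [hy, toBoolRing_ofBoolRing]
    have hxy : x = symmDiff c y := by
      rw [← toBoolRing_inj, toBoolRing_symmDiff, hx, hy']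
    have h1 := ih (fun d hd => hF d (Finset.mem_insert_of_mem hd)) y hy'
    have h2 := hgen c (Or.inl (hF c (Finset.mem_insert_self c F)).1)
    have h3 : xor (m x) (n x) = xor (xor (m c) (n c)) (xor (m y) (n y)) := by
      rw [hxy, hm.sd, hn.sd]
      cases m c <;> cases m y <;> cases n c <;> cases n y <;> rfl
    rw [h3, h2, Finset.mem_insert]
    by_cases hec : e = c
    · subst hec
      have h4 : xor (m y) (n y) = false := by
        rw [← Bool.not_eq_true, h1]; exact hcF
      simp [h4]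
    · have h5 : decide (e = c) = false := by simpa using hec
      rw [h5, Bool.false_xor, h1]
      simp [hec]

lemma exists_weight (C : Set T) (hC : IsChain (· ≤ ·) C)
    (hgen : BooleanSubalgebra.closure C = ⊤) :
    ∃ W : T → Colex (Cardinal.{u} →₀ ℕ), Function.Injective W ∧
      ∀ x y, W (x ⊓ y) + W (x ⊔ y) ≤ W x + W y := by
  classical
  choose F hF hFx using exists_rep C hC hgen
  let ι : T ↪ Cardinal.{u} := embeddingToCardinal
  let W : T → (Cardinal.{u} →₀ ℕ) := fun x => Finsupp.indicator ((F x).map ι) (fun _ _ => 1)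
  have hW : ∀ x a, W x a = if a ∈ (F x).map ι then 1 else 0 := by
    intro x a
    simp only [W, Finsupp.indicator_apply]
    split_ifs <;> rfl
  refine ⟨fun x => toColex (W x), ?_, ?_⟩
  · intro x y hxy
    have h1 : W x = W y := toColex_inj.1 hxy
    have h2 : F x = F y := by
      ext c
      have h3 := DFunLike.congr_fun h1 (ι c)
      rw [hW, hW] at h3
      simp only [Finset.mem_map'] at h3
      by_cases h4 : c ∈ F x <;> by_cases h5 : c ∈ F y <;> simp_all
    rw [← toBoolRing_inj, hFx x, hFx y, h2]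
  · intro x y
    have hp : W (x ⊓ y) + W (x ⊔ y) ≤ W x + W y := by
      intro a
      rw [Finsupp.add_apply, Finsupp.add_apply, hW, hW, hW, hW]
      by_cases ha : ∃ e, ι e = a ∧ ((e = ⊤ ∨ e ∈ C) ∧ e ≠ ⊥)
      · obtain ⟨e, rfl, he, he0⟩ := ha
        obtain ⟨m, n, hm, hn, hk⟩ := exists_kappa C hC e he he0
        simp only [Finset.mem_map']
        have k : ∀ z, (e ∈ F z) ↔ xor (m z) (n z) = true := by
          intro z
          exact (hk (F z) (hF z) z (hFx z)).symm
        simp only [k, hm.inf, hn.inf, hm.sup, hn.sup]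
        cases m x <;> cases m y <;> cases n x <;> cases n y <;> decide
      · have k : ∀ z, a ∉ (F z).map ι := by
          intro z hz
          rw [Finset.mem_map] at hz
          obtain ⟨e, he, hea⟩ := hz
          exact ha ⟨e, hea, hF z e he⟩
        simp [k]
    exact Finsupp.toColex_monotone hp

end aux

theorem result : ∀ (T : Type u) [BooleanAlgebra T], GeneratedByChain T →
    MonotoneSelectionProperty T := by
  classical
  intro T _ ⟨C, hC, hgen⟩
  obtain ⟨W, hinj, hsub⟩ := exists_weight C hC hgen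
  have hmin : ∀ S : {S : Set T // IsSublattice S}, ∃ x ∈ S.1, ∀ y ∈ S.1, W x ≤ W y := by
    intro S
    obtain ⟨x, hx, hmin⟩ := (InvImage.wf W wellFounded_lt).has_min S.1 S.2.1
    exact ⟨x, hx, fun y hy => not_lt.1 (hmin y hy)⟩
  choose φ hφ hφm using hmin
  refine ⟨φ, ?_, hφ⟩
  intro S S' hSS
  obtain ⟨h1, h2⟩ := hSS (φ S) (hφ S) (φ S') (hφ S')
  have h3 := hφm S _ h1
  have h4 := hφm S' _ h2
  have h5 : W (φ S) = W (φ S ⊓ φ S') := by
    refine le_antisymm h3 (not_lt.1 fun hlt => ?_)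
    exact absurd (hsub (φ S) (φ S')) (not_le_of_gt (add_lt_add_of_lt_of_le hlt h4))
  exact inf_eq_left.1 (hinj h5).symm

end Pool.Agent.Results.MP_9a43b6_co.MonotoneSelection
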